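import Mathlib
import Pool.Agent.H680R3.ZP.Stmts
import Pool.Agent.H639R3.Z.Fin

/-!
# Sub-tasks of task P6 (TaskFactor) of project ZP
-/

set_option autoImplicit false

open Pool.Agent.H639R3

namespace Pool.Agent.H335R3.ZF

/-- KS. The decomposition group surjects onto the automorphism group of the residue field
(infinite Galois extensions). -/
def KS : Prop := ∀ (F L A : Type) [Field F] [Field L] [Algebra F L] [IsGalois F L]
    [CommRing A] [IsDedekindDomain A] [Algebra A F] [IsFractionRing A F]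
    (w : ValuationSubring L), (∀ a : A, algebraMap F L (algebraMap A F a) ∈ w) →
    w.comap (algebraMap F L) ≠ ⊤ →
    ∀ g : IsLocalRing.ResidueField w ≃+* IsLocalRing.ResidueField w,
    (∀ (a : F) (ha : algebraMap F L a ∈ w), g (IsLocalRing.residue w ⟨algebraMap F L a, ha⟩) =
      IsLocalRing.residue w ⟨algebraMap F L a, ha⟩) →
    ∃ (σ : L ≃ₐ[F] L) (h : ∀ a, a ∈ w ↔ σ a ∈ w), ∀ (a : L) (ha : a ∈ w),
      IsLocalRing.residue w ⟨σ a, (h a).1 ha⟩ = g (IsLocalRing.residue w ⟨a, ha⟩)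

/-- Existence of Frobenius elements. -/
def FrobEx : Prop := ∀ (p : ℕ) [Fact p.Prime] (k K L : Type) [Field k] [Finite k]
  [Field K] [Field L] [Algebra k K] [Algebra K L] [Algebra k L] [IsScalarTower k K L]
  (_ : ZpTower p k K L) (x : ClosedPoint k K), ∃ σ : L ≃ₐ[K] L, IsFrob x σ

/-- The inertia groups of an unramified point are trivial at the level `n`. -/
def Inert : Prop := ∀ (p : ℕ) [Fact p.Prime] (k K L : Type) [Field k] [Finite k]
  [Field K] [Field L] [Algebra k K] [Algebra K L] [Algebra k L] [IsScalarTower k K L]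
  (T : ZpTower p k K L) (x : ClosedPoint k K), IsUnramifiedIn L x →
  ∀ w : ValuationSubring L, w.comap (algebraMap K L) = x.ring → ∀ (n : ℕ) (z : ℤ_[p]),
    T.mv z w = w → (∀ a : L, a ∈ T.layer n → a ∈ w → w.valuation (T.aut z a - a) < 1) →
    (p : ℤ_[p]) ^ n ∣ z

/-- Contributions of the unramified points. -/
def Unr : Prop := ∀ (p : ℕ) [Fact p.Prime] (k K L : Type) [Field k] [Finite k]
  [Field K] [Field L] [Algebra k K] [Algebra K L] [Algebra k L] [IsScalarTower k K L]
  (T : ZpTower p k K L) (x : ClosedPoint k K), IsUnramifiedIn L x → ∀ n m : ℕ, 0 < m →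
    (x.deg ∣ m ∧ (p : ℤ_[p]) ^ n ∣ ((m / x.deg : ℕ) : ℤ_[p]) * (T.iso (frob x)).toAdd →
      T.contrib n x m = p ^ n * x.deg) ∧
    (¬ (x.deg ∣ m ∧ (p : ℤ_[p]) ^ n ∣ ((m / x.deg : ℕ) : ℤ_[p]) * (T.iso (frob x)).toAdd) →
      T.contrib n x m = 0)

/-- Contributions of the ramified points. -/
def Ram : Prop := ∀ (p : ℕ) [Fact p.Prime] (k K L : Type) [Field k] [Finite k] [CharP k p]
  [Field K] [Field L] [Algebra k K] [Algebra K L] [Algebra k L] [IsScalarTower k K L]
  (T : ZpTower p k K L) (x : ClosedPoint k K), ¬ IsUnramifiedIn L x →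
  ∃ n0 : ℕ, ∀ n, n0 ≤ n → ∀ m : ℕ, T.contrib (n + 1) x m = T.contrib n x m

/-- The logarithmic derivative of an Euler product. -/
def LogE : Prop := ∀ (ι R : Type) [Field R] (d : ι → ℕ) (_ : ∀ x, 0 < d x)
  (hfin : ∀ m, {x | d x ≤ m}.Finite) (c : ι → R),
    IsLog (eulerProduct d c) (PowerSeries.mk fun m => if m = 0 then 0 else
      ∑ x ∈ (hfin m).toFinset, if d x ∣ m then (d x : R) * c x ^ (m / d x) else 0)

/-- Power sums of the primitive roots of unity. -/
def RootSum : Prop := ∀ (p : ℕ) [Fact p.Prime] (R : Type) [Field R] [CharZero R] [IsAlgClosed R]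
  (n j : ℕ), ∑ z ∈ primitiveRoots (p ^ (n + 1)) R, z ^ j =
    (if p ^ (n + 1) ∣ j then (p : R) ^ (n + 1) else 0) - (if p ^ n ∣ j then (p : R) ^ n else 0)

def TaskKS : Prop := KS
def TaskFrobEx : Prop := KS → FrobEx
def TaskInert : Prop := KS → Inert
def TaskUnr : Prop := FrobEx → Inert → Unr
def TaskRam : Prop := Ram
def TaskLogE : Prop := LogE
def TaskRootSum : Prop := RootSum
def TaskFactorAsm : Prop := Unr → Ram → LogE → RootSum → H680ZP.TaskFactor

end Pool.Agent.H335R3.ZF
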