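import Mathlib
import Pool.Agent.H335R3.ZF.Stmts

/-!
# Assembly of task P6 (TaskFactor) of project ZP
-/

set_option autoImplicit false

open Pool.Agent.H639R3 PowerSeries

namespace Pool.Agent.H335R3.ZF

theorem IsLog.ext_char_zero {R : Type*} [Field R] [CharZero R] {f g a : PowerSeries R}
    (hf : IsLog f a) (hg : IsLog g a) (ha : coeff 0 a = 0) (h0 : coeff 0 f = coeff 0 g) : f = g := by
  have hX : ∀ (f : PowerSeries R) (m : ℕ), coeff m (X * derivative R f) = m * coeff m f := by
    intro f m
    rcases m with _ | m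
    · simp
    · rw [coeff_succ_X_mul, coeff_derivative]
      push_cast
      ring
  have key : ∀ m, coeff m f = coeff m g := by
    intro m
    induction m using Nat.strong_induction_on with
    | _ m ih =>
      rcases Nat.eq_zero_or_pos m with hm | hm
      · rw [hm]; exact h0
      · have h1 := congrArg (coeff m) hf
        have h2 := congrArg (coeff m) hg
        rw [hX, coeff_mul] at h1 h2
        have h3 : ∑ q ∈ Finset.HasAntidiagonal.antidiagonal m, coeff q.1 a * coeff q.2 f =
            ∑ q ∈ Finset.HasAntidiagonal.antidiagonal m, coeff q.1 a * coeff q.2 g := by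
          apply Finset.sum_congr rfl
          rintro ⟨b, c⟩ hbc
          rw [Finset.HasAntidiagonal.mem_antidiagonal] at hbc
          simp only at hbc ⊢
          rcases Nat.eq_zero_or_pos b with hb | hb
          · rw [hb, ha, zero_mul, zero_mul]
          · rw [ih c (by omega)]
        rw [h3, ← h2] at h1
        have hm' : (m : R) ≠ 0 := by exact_mod_cast hm.ne'
        exact mul_left_cancel₀ hm' h1
  ext m
  exact key m

theorem coeff_zero_euler {ι R : Type*} [Field R] (d : ι → ℕ) (hd : ∀ x, 0 < d x)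
    (hfin : ∀ m, {x | d x ≤ m}.Finite) (c : ι → R) : coeff 0 (eulerProduct d c) = 1 := by
  rw [coeff_eulerProduct d hd hfin c 0]
  have : (hfin 0).toFinset = ∅ := by
    ext x
    rw [Set.Finite.mem_toFinset, Set.mem_ofPred_eq]
    have := hd x
    constructor
    · intro h; omega
    · intro h; exact absurd h (Finset.notMem_empty _)
  rw [this, Finset.prod_empty]
  simp

section

variable {p : ℕ} [Fact p.Prime] {k K L : Type} [Field k] [Field K] [Field L]
    [Algebra k K] [Algebra K L] [Algebra k L] [IsScalarTower k K L]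

theorem dvd_ex (T : ZpTower p k K L) (N i j : ℕ) (hi : i ≤ N) (σ : L ≃ₐ[K] L) :
    p ^ i ∣ H680ZP.ex T N σ * j ↔ (p : ℤ_[p]) ^ i ∣ (j : ℤ_[p]) * (T.iso σ).toAdd := by
  have hp : Fact p.Prime := inferInstance
  have hNZ : NeZero (p ^ N) := ⟨(pow_pos hp.out.pos _).ne'⟩
  set z : ℤ_[p] := (T.iso σ).toAdd with hz
  have h1 : z - ((PadicInt.toZModPow N z).val : ℤ_[p]) ∈ RingHom.ker (PadicInt.toZModPow (p := p) N) := by
    rw [RingHom.mem_ker, map_sub, map_natCast, ZMod.natCast_val, ZMod.cast_id, sub_self]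
  rw [PadicInt.ker_toZModPow, Ideal.mem_span_singleton] at h1
  have h2 : (p : ℤ_[p]) ^ i ∣ z - (H680ZP.ex T N σ : ℤ_[p]) := (pow_dvd_pow _ hi).trans h1
  have h3 : p ^ i ∣ H680ZP.ex T N σ * j ↔ (p : ℤ_[p]) ^ i ∣ ((H680ZP.ex T N σ * j : ℕ) : ℤ_[p]) := by
    have h4 := PadicInt.pow_p_dvd_int_iff (p := p) i ((H680ZP.ex T N σ * j : ℕ) : ℤ)
    rw [Int.cast_natCast] at h4
    rw [h4]
    exact_mod_cast Iff.rfl
  rw [h3]
  push_cast
  have h5 : (p : ℤ_[p]) ^ i ∣ (j : ℤ_[p]) * z - (H680ZP.ex T N σ : ℤ_[p]) * j := by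
    have h6 : (j : ℤ_[p]) * z - (H680ZP.ex T N σ : ℤ_[p]) * j =
      (z - (H680ZP.ex T N σ : ℤ_[p])) * j := by ring
    rw [h6]
    exact h2.mul_right _
  exact (dvd_iff_dvd_of_dvd_sub h5).symm

theorem numPts_sum' [Finite k] (T : ZpTower p k K L) (n m : ℕ) (hm : 0 < m) :
    (∑ y ∈ (finite_points (T.isCurve_layer n) m).toFinset, if y.deg ∣ m then y.deg else 0) =
      ∑ x ∈ (finite_points T.curve m).toFinset, T.contrib n x m := by
  rw [← numPts_sum (T.isCurve_layer n) m hm, T.numPts_eq n m hm]

end

theorem taskFactorAsm : TaskFactorAsm := by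
  intro hU hRam hL hS p _ k K L R _ _ _ _ _ _ _ _ _ _ _ _ T hram
  classical
  have hp : Fact p.Prime := inferInstance
  have h1 : ∀ x : ClosedPoint k K, ∃ n0 : ℕ, x ∈ T.S → ∀ n, n0 ≤ n → ∀ m : ℕ,
      T.contrib (n + 1) x m = T.contrib n x m := by
    intro x
    by_cases hx : x ∈ T.S
    · obtain ⟨n0, hn0⟩ := hRam p k K L T x (hram x hx)
      exact ⟨n0, fun _ => hn0⟩
    · exact ⟨0, fun h => absurd h hx⟩
  choose n0 hn0 using h1
  refine ⟨∑ x ∈ T.finite.toFinset, n0 x, fun n hn => ?_⟩
  have hn1 : ∀ x ∈ T.S, n0 x ≤ n := fun x hx =>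
    (Finset.single_le_sum (f := fun x => n0 x) (fun _ _ => Nat.zero_le _)
      ((Set.Finite.mem_toFinset _).2 hx)).trans hn
  have hd : ∀ x : {x : ClosedPoint k K // x ∉ T.S}, 0 < x.1.deg := fun x =>
    x.1.deg_pos T.curve
  have hfin : ∀ m, {x : {x : ClosedPoint k K // x ∉ T.S} | x.1.deg ≤ m}.Finite := by
    intro m
    have h1 := (finite_points T.curve m).preimage
      (f := fun x : {x : ClosedPoint k K // x ∉ T.S} => x.1) Subtype.val_injective.injOn
    exact h1
  have hdl : ∀ (n : ℕ) (y : ClosedPoint k (T.layer n)), 0 < y.deg := fun n y =>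
    y.deg_pos (T.isCurve_layer n)
  -- the logarithmic derivatives
  have e1 := isLog_linear (1 : R)
  rw [map_one, one_mul] at e1
  have e2 := e1.mul (isLog_linear (Nat.card k : R))
  have e3 : ∀ n, IsLog (H680ZP.zn k (T.layer n) R) _ := fun n =>
    e2.mul (isLog_euler (R := R) (fun x : ClosedPoint k (T.layer n) => x.deg) (hdl n)
      (finite_points (T.isCurve_layer n)))
  have e4 := fun z : R => hL {x : ClosedPoint k K // x ∉ T.S} R (fun x => x.1.deg) hd hfin
    (fun x => z ^ H680ZP.ex T (n + 1) (frob x.1))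
  have e5 := (e3 n).mul (IsLog.prod (primitiveRoots (p ^ (n + 1)) R) _ _ fun z _ => e4 z)
  refine IsLog.ext_char_zero (e3 (n + 1)) ?_ ?_ ?_
  · convert e5 using 1
    ext m
    by_cases hm : m = 0
    · simp [hm]
    · have hm0 : 0 < m := Nat.pos_of_ne_zero hm
      simp only [map_add, map_sum, coeff_mk, if_neg hm]
      rw [numPts_sum' T (n + 1) m hm0, numPts_sum' T n m hm0]
      refine (fun key => ?_ : ((∑ x ∈ (finite_points T.curve m).toFinset, T.contrib (n + 1) x m : ℕ) : R) =
        ((∑ x ∈ (finite_points T.curve m).toFinset, T.contrib n x m : ℕ) : R) +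
          ∑ z ∈ primitiveRoots (p ^ (n + 1)) R, ∑ x ∈ (hfin m).toFinset, (if x.1.deg ∣ m then
            (x.1.deg : R) * (z ^ H680ZP.ex T (n + 1) (frob x.1)) ^ (m / x.1.deg) else 0) → _) ?_
      · rw [key]; ring
      rw [← Finset.sum_filter_add_sum_filter_not _ (fun x => x ∈ T.S) (fun x => T.contrib (n + 1) x m),
        ← Finset.sum_filter_add_sum_filter_not _ (fun x => x ∈ T.S) (fun x => T.contrib n x m)]
      have hSsum : ∑ x ∈ (finite_points T.curve m).toFinset with x ∈ T.S, T.contrib (n + 1) x m =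
          ∑ x ∈ (finite_points T.curve m).toFinset with x ∈ T.S, T.contrib n x m := by
        apply Finset.sum_congr rfl
        intro x hx
        have hxS := (Finset.mem_filter.1 hx).2
        exact hn0 x hxS n (hn1 x hxS) m
      rw [hSsum]
      push_cast
      rw [add_assoc]
      congr 1
      rw [Finset.sum_comm]
      have hbij : ∀ F : ClosedPoint k K → R,
          ∑ x ∈ (hfin m).toFinset, F x.1 =
          ∑ x ∈ (finite_points T.curve m).toFinset with ¬ x ∈ T.S, F x := by
        intro F
        refine Finset.sum_bij (fun x _ => x.1) ?_ ?_ ?_ ?_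
        · intro x hx
          rw [Set.Finite.mem_toFinset, Set.mem_ofPred_eq] at hx
          rw [Finset.mem_filter, Set.Finite.mem_toFinset, Set.mem_ofPred_eq]
          exact ⟨hx, x.2⟩
        · intro x _ y _ hxy
          exact Subtype.ext hxy
        · intro x hx
          rw [Finset.mem_filter, Set.Finite.mem_toFinset, Set.mem_ofPred_eq] at hx
          refine ⟨⟨x, hx.2⟩, ?_, rfl⟩
          rw [Set.Finite.mem_toFinset, Set.mem_ofPred_eq]
          exact hx.1
        · intro x _
          rfl
      have hx1 : ∀ x : {x : ClosedPoint k K // x ∉ T.S},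
          (∑ z ∈ primitiveRoots (p ^ (n + 1)) R, if x.1.deg ∣ m then
            (x.1.deg : R) * (z ^ H680ZP.ex T (n + 1) (frob x.1)) ^ (m / x.1.deg) else 0) =
          (T.contrib (n + 1) x.1 m : R) - (T.contrib n x.1 m : R) := by
        intro x
        have hxu := T.unramified x.1 x.2
        have c1 := hU p k K L T x.1 hxu (n + 1) m hm0
        have c2 := hU p k K L T x.1 hxu n m hm0
        by_cases hdm : x.1.deg ∣ m
        · simp only [if_pos hdm]
          rw [← Finset.mul_sum]
          simp only [← pow_mul]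
          rw [hS p R n (H680ZP.ex T (n + 1) (frob x.1) * (m / x.1.deg))]
          simp only [dvd_ex T (n + 1) (n + 1) (m / x.1.deg) le_rfl (frob x.1),
            dvd_ex T (n + 1) n (m / x.1.deg) (Nat.le_succ n) (frob x.1)]
          have d1 : (T.contrib (n + 1) x.1 m : R) =
              (x.1.deg : R) * (if (p : ℤ_[p]) ^ (n + 1) ∣ ((m / x.1.deg : ℕ) : ℤ_[p]) *
                (T.iso (frob x.1)).toAdd then (p : R) ^ (n + 1) else 0) := by
            split_ifs with h
            · rw [c1.1 ⟨hdm, h⟩]; push_cast; ring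
            · rw [c1.2 (fun h' => h h'.2)]; simp
          have d2 : (T.contrib n x.1 m : R) =
              (x.1.deg : R) * (if (p : ℤ_[p]) ^ n ∣ ((m / x.1.deg : ℕ) : ℤ_[p]) *
                (T.iso (frob x.1)).toAdd then (p : R) ^ n else 0) := by
            split_ifs with h
            · rw [c2.1 ⟨hdm, h⟩]; push_cast; ring
            · rw [c2.2 (fun h' => h h'.2)]; simp
          rw [d1, d2]
          ring
        · simp only [if_neg hdm]
          rw [c1.2 (fun h => hdm h.1), c2.2 (fun h => hdm h.1)]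
          simp
      rw [Finset.sum_congr rfl (fun x _ => hx1 x),
        hbij (fun x => (T.contrib (n + 1) x m : R) - (T.contrib n x m : R)),
        Finset.sum_sub_distrib]
      ring
  · simp
  · have hz : ∀ n, coeff 0 (H680ZP.zn k (T.layer n) R) = 1 := by
      intro n
      unfold H680ZP.zn
      rw [coeff_zero_eq_constantCoeff_apply, map_mul, map_mul, ← coeff_zero_eq_constantCoeff_apply,
        ← coeff_zero_eq_constantCoeff_apply, ← coeff_zero_eq_constantCoeff_apply,
        coeff_zero_euler _ (hdl n) (finite_points (T.isCurve_layer n))]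
      simp
    rw [hz, coeff_zero_eq_constantCoeff_apply, map_mul, map_prod, ← coeff_zero_eq_constantCoeff_apply,
      hz, one_mul]
    symm
    apply Finset.prod_eq_one
    intro z _
    rw [← coeff_zero_eq_constantCoeff_apply]
    exact coeff_zero_euler _ hd hfin _

end Pool.Agent.H335R3.ZF
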