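import Pool.Agent.H335R3.ZF.Stmts

set_option autoImplicit false

/-!
Task P6-Inert of project ZP: the inertia groups of an unramified point are trivial at every layer.
-/

open Pool.Agent.H639R3

namespace Pool.Agent.H335R3.ZF

theorem taskInert : TaskInert := by
  intro hKS p _ k K L _ _ _ _ _ _ _ _ T x hx w hw n z hz htriv
  have := T.galois
  have := T.layer_finite n
  obtain ⟨A, h1, h2, h3⟩ := exists_base T.curve x
  have hD : IsDedekindDomain (integralClosure A (T.layer n)) :=
    integralClosure.isDedekindDomain A K (L := T.layer n)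
  have hFr : IsFractionRing (integralClosure A (T.layer n)) (T.layer n) :=
    integralClosure.isFractionRing_of_finite_extension K (T.layer n)
  have hmem : ∀ a : L, a ∈ w ↔ T.aut z a ∈ w := by
    intro a
    conv_lhs => rw [← hz]
    rw [ZpTower.mem_mv]
  let g : w ≃+* w :=
    { toFun := fun a => ⟨T.aut z a, (hmem a).mp a.2⟩
      invFun := fun a => ⟨(T.aut z).symm a, (hmem _).mpr (by
        rw [AlgEquiv.apply_symm_apply]; exact a.2)⟩
      left_inv := fun a => Subtype.ext (by simp)
      right_inv := fun a => Subtype.ext (by simp)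
      map_mul' := fun a b => Subtype.ext (by simp)
      map_add' := fun a b => Subtype.ext (by simp) }
  let gr : IsLocalRing.ResidueField w ≃+* IsLocalRing.ResidueField w :=
    IsLocalRing.ResidueField.mapAut (R := w) g
  have hgr : ∀ (a : L) (ha : a ∈ w), gr (IsLocalRing.residue w ⟨a, ha⟩) =
      IsLocalRing.residue w ⟨T.aut z a, (hmem a).mp ha⟩ := fun a ha => rfl
  obtain ⟨σ, h, hres⟩ := hKS (T.layer n) L (integralClosure A (T.layer n)) w (by
    intro a
    have h4 : (algebraMap (integralClosure A (T.layer n)) (T.layer n) a) ∈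
        w.comap (algebraMap (T.layer n) L) := by
      apply integral_mem (A := A)
      · intro b
        have h5 := h3 _ b.2
        rw [← hw] at h5
        exact h5
      · exact a.2
    exact h4) (T.pt n x w hw).ne_top gr (by
      intro a ha
      rw [hgr, ← sub_eq_zero, ← map_sub, IsLocalRing.residue_eq_zero_iff,
        ValuationSubring.valuation_lt_one_iff]
      exact htriv (algebraMap (T.layer n) L a) a.2 ha)
  have hfix : σ.restrictScalars K ∈ T.sub n := by
    rw [T.mem_sub_iff]
    intro a ha
    exact σ.commutes ⟨a, ha⟩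
  rw [T.mem_sub] at hfix
  obtain ⟨z', hz'⟩ := hfix
  have haut : ∀ a : L, T.aut ((p : ℤ_[p]) ^ n * z') a = σ a := by
    intro a
    rw [← hz', T.aut_surj]
    rfl
  have hcomp : ∀ a : L, T.aut z a = σ (T.aut (z - (p : ℤ_[p]) ^ n * z') a) := by
    intro a
    rw [← haut, ← T.aut_add, sub_add_cancel]
  have hτ : T.aut (z - (p : ℤ_[p]) ^ n * z') = 1 := by
    have hm2 : ∀ a : L, a ∈ w ↔ T.aut (z - (p : ℤ_[p]) ^ n * z') a ∈ w := by
      intro a
      rw [hmem a, hcomp a]
      exact (h _).symm
    refine hx w hw _ hm2 ?_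
    intro a ha
    have hb := (hm2 a).mp ha
    have e1 := hgr a ha
    have e2 := hres _ hb
    have e3 : IsLocalRing.residue w ⟨T.aut z a, (hmem a).mp ha⟩ =
        IsLocalRing.residue w ⟨σ (T.aut (z - (p : ℤ_[p]) ^ n * z') a), (h _).1 hb⟩ := by
      congr 1
      exact Subtype.ext (hcomp a)
    rw [e3, e2] at e1
    have e4 := gr.injective e1
    have e5 : IsLocalRing.residue w (⟨_, hb⟩ - ⟨a, ha⟩) = 0 := by
      rw [map_sub, sub_eq_zero]
      exact e4.symm
    rw [IsLocalRing.residue_eq_zero_iff, ValuationSubring.valuation_lt_one_iff] at e5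
    exact e5
  have h5 := T.aut_injective hτ
  exact ⟨z', sub_eq_zero.mp h5⟩

end Pool.Agent.H335R3.ZF
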