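import Mathlib
import Pool.Agent.H335R3.ZF.Asm
import Pool.Agent.H335R3.ZF.TaskInert
import Pool.Agent.H886R3.TaskKS
import Pool.Agent.H211R3.ZF.FrobEx
import Pool.Agent.H78R3.ZF_Unr
import Pool.Agent.H528R3.Ram
import Pool.Agent.H563R3.ZF.LogE
import Pool.Agent.H183R3.RootSum

/-!
# Task P6 (TaskFactor) of project ZP: the factorisation of the zeta numerators
-/

set_option autoImplicit false

namespace Pool.Agent.H335R3.ZF

theorem taskFactor : H680ZP.TaskFactor :=
  taskFactorAsm (taskUnr Pool.Agent.H211R3.ZF.frobEx (taskInert Pool.Agent.H886R3.KS.taskKS))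
    Pool.Agent.H528R3.Ram.taskRam Pool.Agent.H563R3.ZF.taskLogE Pool.Agent.H183R3.RootSum.taskRootSum

end Pool.Agent.H335R3.ZF
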